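import Mathlib
import Pool.Agent.TH507.DS.C

/-!
# Linear relations of exponential height between multiple zeta values are double shuffle relations
-/

set_option autoImplicit false

namespace Pool.Agent.Results.MP_154526_nt.DoubleShuffleHeights

/-- `trunc [s_1, ..., s_r] m` is the sum of `∏ k_i ^ (-s_i)` over `m > k_1 > ... > k_r ≥ 1` -/
noncomputable def trunc : List ℕ → ℕ → ℝ
  | [], _ => 1
  | s :: l, m => ∑ j ∈ Finset.Ico 1 m, trunc l j / (j : ℝ) ^ s

/-- the multiple zeta value `ζ(s_1, ..., s_r)`, `s_1` belongs to the largest variable -/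
noncomputable def mzv : List ℕ → ℝ
  | [] => 1
  | s :: l => ∑' k : ℕ, trunc l (k + 1) / ((k + 1 : ℕ) : ℝ) ^ s

/-- the word `y_{k_1} ... y_{k_t}`, where `y_k = x ^ (k - 1) y`, `x = false`, `y = true` -/
def word : List ℕ → List Bool
  | [] => []
  | k :: l => List.replicate (k - 1) false ++ true :: word l

/-- `index 0 w` is the list of the `k_i` for the word `w = y_{k_1} ... y_{k_t}` -/
def index : ℕ → List Bool → List ℕ
  | _, [] => []
  | c, true :: u => (c + 1) :: index 0 u
  | c, false :: u => index (c + 1) u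

/-- the list of the shuffles of two words -/
def shuffles : List Bool → List Bool → List (List Bool)
  | [], v => [v]
  | a :: u, [] => [a :: u]
  | a :: u, b :: v => (shuffles u (b :: v)).map (a :: ·) ++ (shuffles (a :: u) v).map (b :: ·)
termination_by u v => u.length + v.length

/-- the list of the indices in the stuffle product of two indices -/
def stuffles : List ℕ → List ℕ → List (List ℕ)
  | [], l => [l]
  | i :: k, [] => [i :: k]
  | i :: k, j :: l => (stuffles k (j :: l)).map (i :: ·) ++ (stuffles (i :: k) l).map (j :: ·) ++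
      (stuffles k l).map ((i + j) :: ·)
termination_by k l => k.length + l.length

/-- integer combinations of words -/
abbrev H : Type := List Bool →₀ ℤ

/-- the sum of a list of words -/
noncomputable def total (L : List (List Bool)) : H := (L.map fun w => Finsupp.single w 1).sum

/-- the linear map `Z` with `Z (y_{k_1} ... y_{k_t}) = ζ(k_1, ..., k_t)` -/
noncomputable def Z : H →ₗ[ℤ] ℝ := Finsupp.linearCombination ℤ fun w => mzv (index 0 w)

/-- the shuffle product of the words `y_{k_1} ... y_{k_s}` and `y_{l_1} ... y_{l_t}` -/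
noncomputable def shuffle (k l : List ℕ) : H := total (shuffles (word k) (word l))

/-- the stuffle product of the words `y_{k_1} ... y_{k_s}` and `y_{l_1} ... y_{l_t}` -/
noncomputable def stuffle (k l : List ℕ) : H := total ((stuffles k l).map word)

/-- the double shuffle element -/
noncomputable def doubleShuffle (k l : List ℕ) : H := shuffle k l - stuffle k l

/-- patterns `[(a_1, b_1), ..., (a_r, b_r)]` with `r ≥ 1`, `a_1 ≥ 1` and no entry `(0, 0)` -/
def Admissible : List (ℕ × ℕ) → Prop
  | [] => False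
  | x :: l => 1 ≤ x.1 ∧ ∀ y ∈ l, y ≠ (0, 0)

/-- the index `(a_1 n + b_1, ..., a_r n + b_r)` -/
def args (n : ℕ) (w : List (ℕ × ℕ)) : List ℕ := w.map fun x => x.1 * n + x.2

/-- the element `a + ∑ c_w w(n) + ∑ d_(u, v) (u(n) shuffle v(n))` -/
noncomputable def element (L : Finset (List (ℕ × ℕ)))
    (P : Finset (List (ℕ × ℕ) × List (ℕ × ℕ))) (n : ℕ) (a : ℤ) (c : List (ℕ × ℕ) → ℤ)
    (d : List (ℕ × ℕ) × List (ℕ × ℕ) → ℤ) : H :=
  a • Finsupp.single [] 1 + ∑ w ∈ L, c w • Finsupp.single (word (args n w)) 1 +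
    ∑ p ∈ P, d p • shuffle (args n p.1) (args n p.2)

/-- For finite sets `L` of patterns and `P` of pairs of patterns and a real number `C` there are
`B > 1` and `n0` such that for all `n ≥ n0` and all integers `a`, `c w`, `d p` with
`|c w|, |d p| ≤ C ^ n`, the element `f = a + ∑ c_w w(n) + ∑ d_(u, v) (u(n) shuffle v(n))` is an
integer combination of double shuffle elements with `Z f = 0`, or `|Z f| > B ^ (-n)`. -/
theorem result (L : Finset (List (ℕ × ℕ))) (P : Finset (List (ℕ × ℕ) × List (ℕ × ℕ)))
    (hL : ∀ w ∈ L, Admissible w) (hP : ∀ p ∈ P, Admissible p.1 ∧ Admissible p.2) (C : ℝ) :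
    ∃ B : ℝ, 1 < B ∧ ∃ n0 : ℕ, ∀ n : ℕ, n0 ≤ n → ∀ (a : ℤ) (c : List (ℕ × ℕ) → ℤ)
      (d : List (ℕ × ℕ) × List (ℕ × ℕ) → ℤ), (∀ w ∈ L, |(c w : ℝ)| ≤ C ^ n) →
      (∀ p ∈ P, |(d p : ℝ)| ≤ C ^ n) →
      (element L P n a c d = ∑ p ∈ P, d p • doubleShuffle (args n p.1) (args n p.2) ∧
        Z (element L P n a c d) = 0) ∨ (B ^ n)⁻¹ < |Z (element L P n a c d)| := by
  have h1 : ∀ l m, trunc l m = Pool.Agent.TH507.WD.hr l m := by
    intro l
    induction l with
    | nil => intro m; rw [trunc, Pool.Agent.TH507.WD.hr]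
    | cons s l ih =>
      intro m
      rw [trunc, Pool.Agent.TH507.WD.hr]
      exact Finset.sum_congr rfl fun j _ => by rw [ih]
  have h2 : ∀ l, mzv l = Pool.Agent.TH507.WD.mz l := by
    intro l
    cases l with
    | nil => rw [mzv, Pool.Agent.TH507.WD.mz]
    | cons s l =>
      rw [mzv, Pool.Agent.TH507.WD.mz]
      exact tsum_congr fun k => by rw [h1]
  have h3 : ∀ l, word l = Pool.Agent.TH507.DS.word l := by
    intro l
    induction l with
    | nil => rfl
    | cons k l ih => rw [word, Pool.Agent.TH507.DS.word, ih]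
  have h4 : ∀ u c, index c u = Pool.Agent.TH507.DS.decA c u := by
    intro u
    induction u with
    | nil => intro c; rw [index, Pool.Agent.TH507.DS.decA]
    | cons b u ih =>
      intro c
      cases b with
      | true => rw [index, Pool.Agent.TH507.DS.decA, ih]
      | false => rw [index, Pool.Agent.TH507.DS.decA, ih]
  have h5 : ∀ u v, shuffles u v = Pool.Agent.TH507.DS.sh u v := by
    intro u v
    induction u, v using Pool.Agent.TH507.DS.sh.induct with
    | case1 v => rw [shuffles, Pool.Agent.TH507.DS.sh]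
    | case2 a u => rw [shuffles, Pool.Agent.TH507.DS.sh]
    | case3 a u b v ih1 ih2 => rw [shuffles, Pool.Agent.TH507.DS.sh, ih1, ih2]
  have h6 : ∀ k l, stuffles k l = Pool.Agent.TH507.DS.stI k l := by
    intro k l
    induction k, l using Pool.Agent.TH507.DS.stI.induct with
    | case1 l => rw [stuffles, Pool.Agent.TH507.DS.stI]
    | case2 i k => rw [stuffles, Pool.Agent.TH507.DS.stI]
    | case3 i k j l ih1 ih2 ih3 => rw [stuffles, Pool.Agent.TH507.DS.stI, ih1, ih2, ih3]
  have h7 : ∀ k l, shuffle k l = Pool.Agent.TH507.DS.el (Pool.Agent.TH507.DS.sh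
      (Pool.Agent.TH507.DS.word k) (Pool.Agent.TH507.DS.word l)) := by
    intro k l
    rw [shuffle, h3, h3, h5]
    rfl
  have h8 : ∀ k l, stuffle k l = Pool.Agent.TH507.DS.el ((Pool.Agent.TH507.DS.stI k l).map
      Pool.Agent.TH507.DS.word) := by
    intro k l
    rw [stuffle, h6, funext h3]
    rfl
  have h9 : ∀ k l, doubleShuffle k l = Pool.Agent.TH507.DS.ds k l := by
    intro k l
    rw [doubleShuffle, h7, h8]
    rfl
  have h10 : Z = Pool.Agent.TH507.DS.Zh := by
    rw [Z, Pool.Agent.TH507.DS.Zh]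
    congr 1
    funext w
    rw [h2, h4]
  have h11 : ∀ n w, args n w = Pool.Agent.TH507.WG.ar n w := fun n w => rfl
  have h12 : ∀ n a c d, element L P n a c d = Pool.Agent.TH507.DS.elt L P n a c d := by
    intro n a c d
    rw [element, Pool.Agent.TH507.DS.elt]
    simp only [h3, h7, h11]
  have hadm : ∀ w, Admissible w → w ≠ [] ∧ Pool.Agent.TH507.WG.HP w ∧
      Pool.Agent.TH507.WG.OK w := by
    intro w hw
    cases w with
    | nil => exact hw.elim
    | cons x l =>
      refine ⟨List.cons_ne_nil _ _, hw.1, fun y hy hy1 => ?_⟩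
      rcases List.mem_cons.1 hy with rfl | hy
      · have h13 := hw.1
        omega
      · have h13 := hw.2 y hy
        by_contra h14
        exact h13 (Prod.ext hy1 (by show y.2 = 0; omega))
  simp only [h12, h9, h10, h11]
  exact Pool.Agent.TH507.DS.ds_main L P (fun w hw => hadm w (hL w hw))
    (fun p hp => ⟨hadm p.1 (hP p hp).1, hadm p.2 (hP p hp).2⟩) C

end Pool.Agent.Results.MP_154526_nt.DoubleShuffleHeights
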